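import Pool.Agent.Q264.KS.Stm3

/-!
# Lemma job KS3-K4A (project KS of helper264, MP_a3b3eb_an), backup by helper184
-/

namespace Pool.Agent.Q184.KS.K4A

open Module Filter Topology Pool.Agent.Q264.KS

universe u

variable {X : Type u} [NormedAddCommGroup X] [NormedSpace ℝ X]

theorem D_norm_le (x : X) : ‖D x‖ ≤ 1 := by
  have h : LipschitzWith 1 (fun z : X => ‖z‖) := lipschitzWith_one_norm
  have := norm_fderiv_le_of_lipschitz ℝ (f := fun z : X => ‖z‖) (x₀ := x) h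
  simpa [D] using this

theorem D_abs_le (x y : X) : |D x y| ≤ ‖y‖ := by
  have h1 := (D x).le_opNorm y
  rw [Real.norm_eq_abs] at h1
  nlinarith [D_norm_le x, norm_nonneg y]

theorem D_le (x y : X) : D x y ≤ ‖y‖ := (le_abs_self _).trans (D_abs_le x y)

theorem D_self {x : X} (h : Sm x) : D x x = ‖x‖ := h.fderiv_norm_self

theorem ray (z : X) (O : Set X) (hz : ‖z‖ = 1) (hO : IsOpen O)
    (hray : ∀ x ∈ O, ∀ t : ℝ, 0 ≤ t → ‖x + t • z‖ = ‖x‖ + t) (g : X →L[ℝ] ℝ)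
    (hg : ∀ y, g y ≤ ‖y‖) (y₀ : X) (hy : y₀ ∈ O) (hgy : g y₀ = ‖y₀‖) : g z = 1 := by
  apply le_antisymm
  · rw [← hz]
    exact hg z
  · obtain ⟨r, hr, hb⟩ := Metric.isOpen_iff.1 hO y₀ hy
    have h1 : y₀ - (r / 2) • z ∈ O := by
      apply hb
      rw [mem_ball_iff_norm]
      have e : y₀ - (r / 2) • z - y₀ = -((r / 2) • z) := by abel
      rw [e, norm_neg, norm_smul, hz, Real.norm_of_nonneg (by positivity)]
      linarith
    have h2 := hray _ h1 (r / 2) (by positivity)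
    rw [sub_add_cancel] at h2
    have h3 := hg (y₀ - (r / 2) • z)
    rw [map_sub, map_smul, smul_eq_mul, hgy] at h3
    have h4 : r / 2 * 1 ≤ r / 2 * g z := by linarith
    exact le_of_mul_le_mul_left h4 (by positivity)

theorem t_K4A : S_K4A.{u} := by
  intro hS2 hB hU hHB X _ _ _ h3 hP z O hz hO hray x₁ x₂ hx₁O hx₂O hx₁ hx₂ hd1 hd2 hne a b ha hb hh
  set h : X := a • x₁ + b • x₂ with hh'
  have hz1 : D x₁ z = 1 := ray z O hz hO hray (D x₁) (D_le x₁) x₁ hx₁O (D_self hx₁)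
  have hz2 : D x₂ z = 1 := ray z O hz hO hray (D x₂) (D_le x₂) x₂ hx₂O (D_self hx₂)
  -- a vector q
  obtain ⟨y₁, hy₁⟩ : ∃ y, D x₁ y ≠ D x₂ y := by
    by_contra hcon
    push Not at hcon
    exact hne (ContinuousLinearMap.ext hcon)
  have hy₁' : D x₂ y₁ - D x₁ y₁ ≠ 0 := fun e => hy₁ (by linarith)
  obtain ⟨q, hq1, hq2⟩ : ∃ q : X, D x₁ q = 0 ∧ D x₂ q = 1 := by
    refine ⟨(D x₂ y₁ - D x₁ y₁)⁻¹ • (y₁ - D x₁ y₁ • z), ?_, ?_⟩
    · rw [map_smul, map_sub, map_smul, hz1, smul_eq_mul, smul_eq_mul, mul_one, sub_self, mul_zero]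
    · rw [map_smul, map_sub, map_smul, hz2, smul_eq_mul, smul_eq_mul, mul_one,
        inv_mul_cancel₀ hy₁']
  set M : X →ₗ[ℝ] ℝ × ℝ := (D x₁).toLinearMap.prod (D x₂).toLinearMap with hM
  have hMy : ∀ y, M y = (D x₁ y, D x₂ y) := fun y => rfl
  have hMs : LinearMap.range M = ⊤ := by
    rw [LinearMap.range_eq_top]
    rintro ⟨s, t⟩
    refine ⟨s • z + (t - s) • q, ?_⟩
    rw [hMy, map_add, map_add, map_smul, map_smul, map_smul, map_smul, hz1, hz2, hq1, hq2]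
    simp
  have hfk : finrank ℝ (LinearMap.ker M) = 1 := by
    have h1 := M.finrank_range_add_finrank_ker
    rw [hMs, finrank_top, h3, finrank_prod, finrank_self] at h1
    omega
  obtain ⟨v, hvk, hv⟩ := Submodule.exists_mem_ne_zero_of_ne_bot
    (LinearMap.ker_ne_bot_of_finrank_lt (f := M) (by
      rw [finrank_prod, finrank_self, h3]
      norm_num))
  have hMv : M v = 0 := hvk
  rw [hMy, Prod.mk_eq_zero] at hMv
  have hspan : ∀ y, M y = 0 → ∃ c : ℝ, y = c • v := by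
    intro y hy
    have h1 := (finrank_eq_one_iff_of_nonzero' (⟨v, hvk⟩ : LinearMap.ker M) (by
      intro e
      exact hv (congrArg Subtype.val e))).1 hfk ⟨y, hy⟩
    obtain ⟨c, hc⟩ := h1
    refine ⟨c, ?_⟩
    have := congrArg Subtype.val hc
    simpa using this.symm
  have hBJ : BJ h v := hS2 hB hU X h3 hP x₁ x₂ v hx₁ hx₂ hd1 hd2 hMv.1 hMv.2 hv hne a b ha hb
  obtain ⟨g, hg, hgh, hgv⟩ := hHB X h v hBJ
  have hgz : g z = 1 := ray z O hz hO hray g hg h hh hgh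
  set γ : ℝ := g q with hγ
  have hgD : ∀ y, g y = (1 - γ) * D x₁ y + γ * D x₂ y := by
    intro y
    obtain ⟨c, hc⟩ := hspan (y - (D x₁ y • z + (D x₂ y - D x₁ y) • q)) (by
      rw [hMy, map_sub, map_sub, map_add, map_add, map_smul, map_smul, map_smul, map_smul, hz1,
        hz2, hq1, hq2]
      simp)
    have h1 := congrArg g hc
    rw [map_sub, map_add, map_smul, map_smul, map_smul, hgv, hgz, smul_zero] at h1
    simp only [smul_eq_mul] at h1
    rw [← hγ] at h1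
    linarith
  have hα : 0 ≤ 1 - γ := by
    by_contra hcon
    push Not at hcon
    have h1 := hg x₂
    rw [hgD, D_self hx₂] at h1
    have h2 : ‖x₂‖ ≤ D x₁ x₂ := by nlinarith
    exact hne (hU X x₂ hx₂ (D x₁) (D_le x₁) (le_antisymm (D_le x₁ x₂) h2))
  have hβ : 0 ≤ γ := by
    by_contra hcon
    push Not at hcon
    have h1 := hg x₁
    rw [hgD, D_self hx₁] at h1
    have h2 : ‖x₁‖ ≤ D x₂ x₁ := by nlinarith
    exact hne (hU X x₁ hx₁ (D x₂) (D_le x₂) (le_antisymm (D_le x₂ x₁) h2)).symm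
  apply le_antisymm
  · rw [← hgh, hgD]
    have h1 := le_max_left (D x₁ h) (D x₂ h)
    have h2 := le_max_right (D x₁ h) (D x₂ h)
    nlinarith [mul_le_mul_of_nonneg_left h1 hα, mul_le_mul_of_nonneg_left h2 hβ]
  · exact max_le (D_le _ _) (D_le _ _)

end Pool.Agent.Q184.KS.K4A
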