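import Pool.Agent.Q264.KS.Stm3

/-!
# Lemma job KS3-K4B (project KS of helper264, MP_a3b3eb_an), backup by helper184
-/

namespace Pool.Agent.Q184.KS.K4B

open Module Filter Topology Pool.Agent.Q264.KS

universe u

variable {X : Type u} [NormedAddCommGroup X] [NormedSpace ℝ X]

theorem D_norm_le (x : X) : ‖D x‖ ≤ 1 := by
  have h : LipschitzWith 1 (fun z : X => ‖z‖) := lipschitzWith_one_norm
  have := norm_fderiv_le_of_lipschitz ℝ (f := fun z : X => ‖z‖) (x₀ := x) h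
  simpa [D] using this

theorem D_abs_le (x y : X) : |D x y| ≤ ‖y‖ := by
  have h1 := (D x).le_opNorm y
  rw [Real.norm_eq_abs] at h1
  nlinarith [D_norm_le x, norm_nonneg y]

theorem D_le (x y : X) : D x y ≤ ‖y‖ := (le_abs_self _).trans (D_abs_le x y)

theorem D_self {x : X} (h : Sm x) : D x x = ‖x‖ := h.fderiv_norm_self

theorem dens_of_AE [FiniteDimensional ℝ X] (hA : S_AE.{u}) (O : Set X) (hO : IsOpen O)
    (hne : O.Nonempty) : ∃ x ∈ O, Sm x := by
  obtain ⟨x, hx, h⟩ := hA X 0 O hO hne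
  refine ⟨x, hx, ?_⟩
  have := h 0
  simpa using this

theorem dens [FiniteDimensional ℝ X] (hA : S_AE.{u}) (O : Set X) (hO : IsOpen O) (F : X → ℝ)
    (hF : Continuous F) (h : ∀ x ∈ O, Sm x → 0 ≤ F x) : ∀ x ∈ O, 0 ≤ F x := by
  intro x hx
  by_contra hcon
  push Not at hcon
  have h1 : IsOpen (O ∩ F ⁻¹' Set.Iio 0) := hO.inter (isOpen_Iio.preimage hF)
  obtain ⟨y, hy, hs⟩ := dens_of_AE hA _ h1 ⟨x, hx, hcon⟩
  have h2 := h y hy.1 hs
  have h3 : F y < 0 := hy.2
  linarith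

/-- the limit argument -/
theorem unif [FiniteDimensional ℝ X] (hU : S_UNI.{u}) (x₁ x₂ : X) (h1 : Sm x₁) (h2 : Sm x₂)
    (hne : D x₂ ≠ D x₁) : ∃ c : ℝ, 0 < c ∧ ∃ ρ : ℝ, 0 < ρ ∧
      ∀ x, Sm x → ‖x - x₂‖ < ρ → D x x₁ ≤ ‖x₁‖ - c := by
  by_contra hcon
  push Not at hcon
  have hch : ∀ n : ℕ, ∃ x : X, Sm x ∧ ‖x - x₂‖ < 1 / ((n : ℝ) + 1) ∧
      ‖x₁‖ - 1 / ((n : ℝ) + 1) < D x x₁ := by
    intro n
    have hp : (0:ℝ) < 1 / ((n : ℝ) + 1) := by positivity
    obtain ⟨x, hx, hx', hx''⟩ := hcon _ hp _ hp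
    exact ⟨x, hx, hx', hx''⟩
  choose x hxs hxn hxD using hch
  have hlim0 : Tendsto (fun n : ℕ => 1 / ((n : ℝ) + 1)) atTop (𝓝 0) :=
    tendsto_one_div_add_atTop_nhds_zero_nat
  have hx2 : Tendsto x atTop (𝓝 x₂) := by
    rw [tendsto_iff_norm_sub_tendsto_zero]
    exact squeeze_zero (fun n => norm_nonneg _) (fun n => (hxn n).le) hlim0
  have hcomp : IsCompact (Metric.closedBall (0 : X →L[ℝ] ℝ) 1) := isCompact_closedBall _ _
  obtain ⟨g, _, φ, hφ, hg⟩ := hcomp.tendsto_subseq (x := fun n => D (x n)) (fun n => by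
    rw [mem_closedBall_zero_iff]
    exact D_norm_le _)
  have hgy : ∀ y, Tendsto (fun n => D (x (φ n)) y) atTop (𝓝 (g y)) := by
    intro y
    have : Continuous (fun f : X →L[ℝ] ℝ => f y) := by fun_prop
    exact (this.tendsto g).comp hg
  have hgle : ∀ y, g y ≤ ‖y‖ := fun y => le_of_tendsto' (hgy y) (fun n => D_le _ _)
  have hxφ : Tendsto (fun n => x (φ n)) atTop (𝓝 x₂) := hx2.comp hφ.tendsto_atTop
  have hg2 : g x₂ = ‖x₂‖ := by
    have ha : Tendsto (fun n => D (x (φ n)) (x (φ n))) atTop (𝓝 (g x₂)) := by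
      have : Continuous (fun p : (X →L[ℝ] ℝ) × X => p.1 p.2) := by fun_prop
      exact (this.tendsto (g, x₂)).comp (hg.prodMk_nhds hxφ)
    have hb : Tendsto (fun n => D (x (φ n)) (x (φ n))) atTop (𝓝 ‖x₂‖) := by
      have : (fun n => D (x (φ n)) (x (φ n))) = fun n => ‖x (φ n)‖ := by
        funext n
        exact D_self (hxs _)
      rw [this]
      exact hxφ.norm
    exact tendsto_nhds_unique ha hb
  have hg1 : g x₁ = ‖x₁‖ := by
    apply le_antisymm (hgle _)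
    have ha : Tendsto (fun n => ‖x₁‖ - 1 / (((φ n : ℕ) : ℝ) + 1)) atTop (𝓝 (‖x₁‖ - 0)) :=
      tendsto_const_nhds.sub (hlim0.comp hφ.tendsto_atTop)
    rw [sub_zero] at ha
    exact le_of_tendsto_of_tendsto' ha (hgy x₁) (fun n => (hxD (φ n)).le)
  have e1 := hU X x₁ h1 g hgle hg1
  have e2 := hU X x₂ h2 g hgle hg2
  exact hne (e2.symm.trans e1)

theorem t_K4B : S_K4B.{u} := by
  intro hK hS2 hB hU hHB hDEN hA X _ _ _ h3 hP z O hz hO hOne hOz hray
  have hn : 2 ≤ finrank ℝ X := by omega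
  obtain ⟨c, hc⟩ := hOne
  obtain ⟨r0, hr0, hb0⟩ := Metric.isOpen_iff.1 hO c hc
  set r : ℝ := min r0 (1 / 32) with hr
  have hrpos : 0 < r := by positivity
  have hr32 : r ≤ 1 / 32 := min_le_right _ _
  set B : Set X := Metric.ball c r with hBdef
  have hBO : B ⊆ O := fun y hy => hb0 (Metric.ball_subset_ball (min_le_left _ _) hy)
  have hBopen : IsOpen B := Metric.isOpen_ball
  have hBne : B.Nonempty := ⟨c, Metric.mem_ball_self hrpos⟩
  have hlow : ∀ y ∈ B, 15 / 16 ≤ ‖y‖ ∧ ‖y‖ ≤ 17 / 16 := by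
    intro y hy
    have h1 := hOz (hBO hy)
    rw [mem_ball_iff_norm] at h1
    constructor
    · have : ‖z‖ ≤ ‖y‖ + ‖y - z‖ := by
        have e : z = y - (y - z) := by abel
        calc ‖z‖ = ‖y - (y - z)‖ := by rw [← e]
          _ ≤ _ := norm_sub_le _ _
      linarith
    · have : ‖y‖ ≤ ‖z‖ + ‖y - z‖ := by
        have e : y = z + (y - z) := by abel
        calc ‖y‖ = ‖z + (y - z)‖ := by rw [← e]
          _ ≤ _ := norm_add_le _ _
      linarith
  have hdist : ∀ x ∈ B, ∀ y ∈ B, ‖x - y‖ ≤ 1 / 16 := by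
    intro x hx y hy
    rw [hBdef, mem_ball_iff_norm] at hx hy
    have e : x - y = (x - c) - (y - c) := by abel
    rw [e]
    linarith [norm_sub_le (x - c) (y - c)]
  obtain ⟨x₁, hx₁B, hx₁⟩ := dens_of_AE hA B hBopen hBne
  obtain ⟨w, hwker, hw⟩ := Submodule.exists_mem_ne_zero_of_ne_bot
    (LinearMap.ker_ne_bot_of_finrank_lt (f := (D x₁).toLinearMap) (by
      rw [finrank_self, h3]
      norm_num))
  have hDw : D x₁ w = 0 := hwker
  -- second smooth point
  obtain ⟨x₂, hx₂B, hx₂, hne⟩ : ∃ x₂ ∈ B, Sm x₂ ∧ D x₂ ≠ D x₁ := by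
    by_contra hcon
    push Not at hcon
    obtain ⟨y, hy, hyn⟩ := no_flat hn hP w hw B hBopen hBne
    apply hyn
    intro l
    have h1 := dens hA B hBopen (fun x => ‖x + l • w‖ - ‖x‖) (by fun_prop) (by
      intro x hx hs
      have h2 : BJ x w := (hB X x hs w).2 (by
        have := hcon x hx hs
        have h4 : D x w = 0 := by rw [this, hDw]
        exact h4)
      linarith [h2 l]) y hy
    linarith
  obtain ⟨c₀, hc₀, ρ0, hρ0, hunif⟩ := unif hU x₁ x₂ hx₁ hx₂ hne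
  obtain ⟨ρ1, hρ1, hbρ⟩ := Metric.isOpen_iff.1 hBopen x₂ hx₂B
  set ρ : ℝ := min ρ0 ρ1 with hρ
  have hρpos : 0 < ρ := by positivity
  set B' : Set X := Metric.ball x₂ ρ with hB'
  have hB'B : B' ⊆ B := fun y hy => hbρ (Metric.ball_subset_ball (min_le_right _ _) hy)
  have hB'c : ∀ x ∈ B', Sm x → D x x₁ ≤ ‖x₁‖ - c₀ := by
    intro x hx hs
    apply hunif x hs
    rw [hB', mem_ball_iff_norm] at hx
    exact lt_of_lt_of_le hx (min_le_left _ _)
  set t : ℝ := c₀ / (c₀ + 5) with ht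
  have ht0 : 0 < t := by positivity
  have ht1 : t < 1 := by
    rw [ht, div_lt_one (by positivity)]
    linarith
  have htc : 4 * t < (1 - t) * c₀ := by
    have e1 : t * (c₀ + 5) = c₀ := by
      rw [ht]
      field_simp
    nlinarith
  have hmem : ∀ x ∈ B', (1 - t) • x₁ + t • x ∈ B := by
    intro x hx
    exact (convex_ball c r) hx₁B (hB'B hx) (by linarith) ht0.le (by ring)
  have hall : ∀ x ∈ B', 0 ≤ D x₁ ((1 - t) • x₁ + t • x) - ‖(1 - t) • x₁ + t • x‖ := by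
    apply dens hA B' Metric.isOpen_ball
    · fun_prop
    · intro x hx hs
      have h1 := hB'c x hx hs
      have hne' : D x₁ ≠ D x := by
        intro e
        rw [← e, D_self hx₁] at h1
        linarith
      have h2 := hlow x₁ hx₁B
      have h4 := hlow x (hB'B hx)
      have h5 := hdist x₁ hx₁B x (hB'B hx)
      have h6 := hK hS2 hB hU hHB X h3 hP z O hz hO hray x₁ x (hBO hx₁B) (hBO (hB'B hx)) hx₁ hs
        (by linarith) (by linarith) hne' (1 - t) t (by linarith) ht0.le (hBO (hmem x hx))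
      have h7 : D x ((1 - t) • x₁ + t • x) ≤ D x₁ ((1 - t) • x₁ + t • x) := by
        rw [map_add, map_add, map_smul, map_smul, map_smul, map_smul, D_self hx₁, D_self hs]
        simp only [smul_eq_mul]
        have h8 := neg_le_of_abs_le (D_abs_le x₁ x)
        nlinarith [mul_le_mul_of_nonneg_left h1 (by linarith : (0:ℝ) ≤ 1 - t),
          mul_le_mul_of_nonneg_left h8 ht0.le, mul_le_mul_of_nonneg_left h4.2 ht0.le]
      rw [h6, max_eq_left h7, sub_self]
  -- the open set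
  obtain ⟨y, hy, hyn⟩ := no_flat hn hP w hw (Metric.ball ((1 - t) • x₁ + t • x₂) (t * ρ))
    Metric.isOpen_ball ⟨_, Metric.mem_ball_self (by positivity)⟩
  apply hyn
  intro l
  set x : X := t⁻¹ • (y - (1 - t) • x₁) with hx
  have hyx : (1 - t) • x₁ + t • x = y := by
    rw [hx, smul_smul, mul_inv_cancel₀ ht0.ne', one_smul]
    abel
  have hxB : x ∈ B' := by
    rw [hB', mem_ball_iff_norm]
    rw [mem_ball_iff_norm] at hy
    have e : x - x₂ = t⁻¹ • (y - ((1 - t) • x₁ + t • x₂)) := by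
      rw [hx, ← sub_sub, smul_sub _ _ (t • x₂), smul_smul, inv_mul_cancel₀ ht0.ne', one_smul]
    rw [e, norm_smul, norm_inv, Real.norm_of_nonneg ht0.le]
    calc t⁻¹ * ‖y - ((1 - t) • x₁ + t • x₂)‖ < t⁻¹ * (t * ρ) :=
          mul_lt_mul_of_pos_left hy (by positivity)
      _ = ρ := by rw [← mul_assoc, inv_mul_cancel₀ ht0.ne', one_mul]
  have h1 := hall x hxB
  rw [hyx] at h1
  have h2 : D x₁ (y + l • w) = D x₁ y := by
    rw [map_add, map_smul, hDw, smul_zero, add_zero]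
  have h4 := D_le x₁ (y + l • w)
  linarith

end Pool.Agent.Q184.KS.K4B
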